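import Pool.Agent.H46.CH.AT

/-!
# The regular level, row JW: words of steps are realised
-/

set_option autoImplicit false

namespace Pool.Agent.H23.CH

open Classical Pool.Agent.H8.VR Pool.Agent.H69.VR Pool.Agent.H46.CH

theorem pf_JW (hJ1 : T_J1) (hJ2 : T_J2) : Pool.Agent.H46.CH.T_JW := by
  intro N Q L T O C _ _ _ _ _ W o a b a' b' e w h
  induction h with
  | nil a b => exact (hJ2 N Q L T O C W o a b a b 0 a b 0).1
  | cons x w a₁ b₁ d₁ a' b' e hs h ih =>
    have h1 := hJ1 N Q L T O C W o x.τ x.m x.a x.b 0 a₁ b₁ d₁ hs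
    have h2 : (fun σ => ind (σ = nw W.S W.K x.τ x.m)) = d₁ := by
      funext σ
      rw [hs.2.2.2.2 σ, Pi.zero_apply, zero_add]
    rw [h2] at h1
    exact (hJ2 N Q L T O C W o x.a x.b a₁ b₁ d₁ a' b' e).2 h1 ih

end Pool.Agent.H23.CH
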