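import Pool.Agent.H46.CH.AT

/-!
# The regular level, row KR: Kruskal's theorem for binary trees
-/

set_option autoImplicit false

namespace Pool.Agent.H23.CH

open Pool.Agent.H46.CH

/-- the size of a tree -/
def bsz {α : Type} : Bt α → ℕ
  | .leaf _ => 1
  | .node _ l r => bsz l + bsz r + 1

/-- immediate subtrees -/
def IS {α : Type} (u t : Bt α) : Prop := ∃ a l r, t = .node a l r ∧ (u = l ∨ u = r)

theorem bsz_lt {α : Type} {u t : Bt α} (h : IS u t) : bsz u < bsz t := by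
  obtain ⟨a, l, r, rfl, rfl | rfl⟩ := h
  · simp only [bsz]
    omega
  · simp only [bsz]
    omega

theorem emb_of_is {α : Type} {r : α → α → Prop} {s u t : Bt α} (h : IS u t) (hs : Bt.Emb r s u) :
    Bt.Emb r s t := by
  obtain ⟨a, l, r', rfl, rfl | rfl⟩ := h
  · exact Bt.Emb.left _ _ _ _ hs
  · exact Bt.Emb.right _ _ _ _ hs

theorem emb_trans {α : Type} {r : α → α → Prop} (htr : ∀ a b c, r a b → r b c → r a c)
    {s t u : Bt α} (h1 : Bt.Emb r s t) (h2 : Bt.Emb r t u) : Bt.Emb r s u := by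
  induction h2 generalizing s with
  | leaf a b h =>
    cases h1 with
    | leaf a' _ h' => exact .leaf _ _ (htr _ _ _ h' h)
  | node a b t₁ t₂ t₁' t₂' h h₁ h₂ ih₁ ih₂ =>
    cases h1 with
    | node a' _ s₁ s₂ _ _ h' k₁ k₂ => exact .node _ _ _ _ _ _ (htr _ _ _ h' h) (ih₁ k₁) (ih₂ k₂)
    | left _ _ _ _ k => exact .left _ _ _ _ (ih₁ k)
    | right _ _ _ _ k => exact .right _ _ _ _ (ih₂ k)
  | left b t t₁' t₂' h ih => exact .left _ _ _ _ (ih h1)
  | right b t t₁' t₂' h ih => exact .right _ _ _ _ (ih h1)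

theorem pf_KR : Pool.Agent.H46.CH.T_KR := by
  intro α r hrefl htrans hr
  by_contra hcon
  have hbad : ∃ f, Set.PartiallyWellOrderedOn.IsBadSeq (Bt.Emb r) Set.univ f := by
    unfold WellQuasiOrdered at hcon
    push Not at hcon
    obtain ⟨f, hf⟩ := hcon
    exact ⟨f, fun _ => trivial, fun m n hmn => hf m n hmn⟩
  obtain ⟨f, ⟨-, hf⟩, hmin⟩ :=
    Set.PartiallyWellOrderedOn.exists_min_bad_of_exists_bad (Bt.Emb r) bsz Set.univ hbad
  -- sequences of immediate subtrees
  have stepA : ∀ (u : ℕ → Bt α) (k : ℕ → ℕ), (∀ n, IS (u n) (f (k n))) →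
      ∃ m n : ℕ, m < n ∧ Bt.Emb r (u m) (u n) := by
    intro u k hu
    by_contra hb
    push Not at hb
    obtain ⟨n₀, hn₀⟩ : ∃ n₀, ∀ n, k n₀ ≤ k n := by
      obtain ⟨y, ⟨n₀, rfl⟩, hy⟩ := WellFounded.has_min (wellFounded_lt (α := ℕ)) (Set.range k)
        (Set.range_nonempty k)
      exact ⟨n₀, fun n => not_lt.1 (hy _ ⟨n, rfl⟩)⟩
    refine hmin (k n₀) (fun m => if m < k n₀ then f m else u (n₀ + (m - k n₀))) ?_ ?_ ⟨fun _ => trivial, ?_⟩
    · intro m hm
      exact (if_pos hm).symm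
    · change bsz (if k n₀ < k n₀ then f (k n₀) else u (n₀ + (k n₀ - k n₀))) < _
      rw [if_neg (lt_irrefl _), Nat.sub_self, Nat.add_zero]
      exact bsz_lt (hu n₀)
    · intro m n hmn hE
      change Bt.Emb r (if m < k n₀ then f m else u (n₀ + (m - k n₀)))
        (if n < k n₀ then f n else u (n₀ + (n - k n₀))) at hE
      by_cases hn : n < k n₀
      · rw [if_pos hn, if_pos (hmn.trans hn)] at hE
        exact hf m n hmn hE
      · rw [if_neg hn] at hE
        by_cases hm : m < k n₀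
        · rw [if_pos hm] at hE
          exact hf m (k (n₀ + (n - k n₀))) (hm.trans_le (hn₀ _)) (emb_of_is (hu _) hE)
        · rw [if_neg hm] at hE
          exact hb _ _ (by omega) hE
  -- almost all terms are nodes
  have hN : ∃ N, ∀ n, ∃ a l r', f (N + n) = .node a l r' := by
    by_contra hc
    push Not at hc
    have h1 : ∀ N, ∃ n, N ≤ n ∧ ∃ a, f n = .leaf a := by
      intro N
      obtain ⟨n, hn⟩ := hc N
      refine ⟨N + n, by omega, ?_⟩
      cases hfn : f (N + n) with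
      | leaf a => exact ⟨a, rfl⟩
      | node a l r' => exact absurd hfn (hn a l r')
    choose s hs1 a hs2 using h1
    -- a strictly increasing sequence of leaves
    let g : ℕ → ℕ := fun n => Nat.rec (s 0) (fun _ x => s (x + 1)) n
    have hg : StrictMono g := strictMono_nat_of_lt_succ fun n => by
      have := hs1 (g n + 1)
      exact this
    have hg2 : ∀ n, ∃ b, f (g n) = .leaf b := by
      intro n
      cases n with
      | zero => exact ⟨_, hs2 0⟩
      | succ n => exact ⟨_, hs2 (g n + 1)⟩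
    choose b hb using hg2
    obtain ⟨m, n, hmn, h2⟩ := hr b
    refine hf (g m) (g n) (hg hmn) ?_
    rw [hb, hb]
    exact Bt.Emb.leaf _ _ h2
  obtain ⟨N, hN⟩ := hN
  choose a l r' hN using hN
  haveI : IsPreorder α r := { refl := hrefl, trans := htrans }
  obtain ⟨g₁, hg₁⟩ := hr.exists_monotone_subseq a
  haveI : IsTrans (Bt α) (Bt.Emb r) := ⟨fun _ _ _ => emb_trans htrans⟩
  obtain ⟨g₂, h2 | h2⟩ := exists_increasing_or_nonincreasing_subseq (Bt.Emb r) (l ∘ g₁)
  · obtain ⟨m, n, hmn, h3⟩ := stepA (fun n => r' (g₁ (g₂ n))) (fun n => N + g₁ (g₂ n))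
      (fun n => ⟨_, _, _, hN _, Or.inr rfl⟩)
    refine hf (N + g₁ (g₂ m)) (N + g₁ (g₂ n)) ?_ ?_
    · have := g₁.strictMono (g₂.strictMono hmn)
      omega
    · rw [hN, hN]
      exact Bt.Emb.node _ _ _ _ _ _ (hg₁ _ _ (g₂.strictMono hmn).le) (h2 m n hmn) h3
  · obtain ⟨m, n, hmn, h3⟩ := stepA (fun n => l (g₁ (g₂ n))) (fun n => N + g₁ (g₂ n))
      (fun n => ⟨_, _, _, hN _, Or.inl rfl⟩)
    exact h2 m n hmn h3

end Pool.Agent.H23.CH
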