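import Pool.Agent.H32.CH.Targets

set_option autoImplicit false

namespace Pool.Agent.H23.CH

open Finset Pool.Agent.H32.CH
open scoped Classical

private theorem flip_in {V : Type} [Fintype V] {G : SimpleGraph V} {B : Finset V} {b y z : V}
    (h1 : T_M1) (h2 : T_M2) (hD : Deg4 G) (hM : MinC G B) (hb : b ∉ B) (hyz : y ≠ z)
    (hy : y ∉ B) (hz : z ∉ B) (hby : G.Adj b y) (hbz : G.Adj b z) : MinC G (insert b B) := by
  have h3 : 2 ≤ dg G Bᶜ b := dg_ge_two hyz (mem_compl.2 hy) (mem_compl.2 hz) hby hbz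
  have h4 := (h1 V G B hD hM).2 b hb
  exact ((h2 V G B hD hM).2 b hb (by omega)).2

theorem pf_M6 (h1 : T_M1) (h2 : T_M2) : T_M6 := by
  intro V _ G A hD hT hE x₁ x₂ b₁ k b₂ hx₁ hx₂ hxx hb₁ hb₂ hk hb₁k hb₂k hbb hnb hbx₁ hxk hkx₂ hxb₂
  obtain ⟨hx₁A, hx₁d⟩ := hx₁
  obtain ⟨hx₂A, hx₂d⟩ := hx₂
  obtain ⟨hb₁A, hb₁d⟩ := hb₁
  obtain ⟨hb₂A, hb₂d⟩ := hb₂
  obtain ⟨c₁, hc₁, hbc₁⟩ := dg_pos.1 (Nat.pos_of_ne_zero hb₁d)
  obtain ⟨c₂, hc₂, hbc₂⟩ := dg_pos.1 (Nat.pos_of_ne_zero hb₂d)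
  rw [mem_compl] at hc₁ hc₂
  -- different vertices
  have nA : ∀ {x y : V}, x ∈ A → y ∉ A → x ≠ y := fun hx hy h => hy (h ▸ hx)
  have n1 : ¬ G.Adj x₂ x₁ := fun h => hT _ _ _ hxk hkx₂ h
  have n2 : ¬ G.Adj k b₁ := fun h => hT _ _ _ hbx₁ hxk h
  have n3 : ¬ G.Adj b₂ k := fun h => hT _ _ _ hkx₂ hxb₂ h
  have m0 : MinC G A := hE.1
  have m1 : MinC G (A.erase x₁) := ((h2 V G A hD m0).1 x₁ hx₁A hx₁d).2
  have hx₂A1 : x₂ ∈ A.erase x₁ := mem_erase.2 ⟨hxx.symm, hx₂A⟩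
  have m2 : MinC G ((A.erase x₁).erase x₂) :=
    ((h2 V G _ hD m1).1 x₂ hx₂A1 (by rw [dg_erase_not n1]; exact hx₂d)).2
  set A2 := (A.erase x₁).erase x₂ with hA2
  have sub : ∀ {y : V}, y ∉ A → y ∉ A2 := fun hy h => hy (mem_of_mem_erase (mem_of_mem_erase h))
  have x₁n : x₁ ∉ A2 := fun h => notMem_erase _ _ (mem_of_mem_erase h)
  have x₂n : x₂ ∉ A2 := fun h => notMem_erase _ _ h
  have m3 : MinC G (insert b₁ A2) :=
    flip_in h1 h2 hD m2 (sub hb₁A) (nA hx₁A hc₁) x₁n (sub hc₁) hbx₁ hbc₁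
  have kn : k ∉ insert b₁ A2 := by
    rw [mem_insert]
    rintro (h | h)
    · exact hb₁k h.symm
    · exact sub hk h
  have m4 : MinC G (insert k (insert b₁ A2)) := by
    refine flip_in h1 h2 hD m3 kn hxx ?_ ?_ hxk.symm hkx₂
    · rw [mem_insert]
      rintro (h | h)
      · exact nA hx₁A hb₁A h
      · exact x₁n h
    · rw [mem_insert]
      rintro (h | h)
      · exact nA hx₂A hb₁A h
      · exact x₂n h
  have bn : b₂ ∉ insert k (insert b₁ A2) := by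
    rw [mem_insert, mem_insert]
    rintro (h | h | h)
    · exact hb₂k h
    · exact hbb h.symm
    · exact sub hb₂A h
  have m5 : MinC G (insert b₂ (insert k (insert b₁ A2))) := by
    refine flip_in h1 h2 hD m4 bn (nA hx₂A hc₂) ?_ ?_ hxb₂.symm hbc₂
    · rw [mem_insert, mem_insert]
      rintro (h | h | h)
      · exact nA hx₂A hk h
      · exact nA hx₂A hb₁A h
      · exact x₂n h
    · rw [mem_insert, mem_insert]
      rintro (h | h | h)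
      · exact n3 (h ▸ hbc₂)
      · exact hnb ((h ▸ hbc₂ : G.Adj b₂ b₁).symm)
      · exact sub hc₂ h
  have hc := hE.2 _ m5
  have c1 : (A.erase x₁).card + 1 = A.card := card_erase_add_one hx₁A
  have c2 : A2.card + 1 = (A.erase x₁).card := card_erase_add_one hx₂A1
  rw [card_insert_of_notMem bn, card_insert_of_notMem kn, card_insert_of_notMem (sub hb₁A)] at hc
  omega

end Pool.Agent.H23.CH
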