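import Pool.Agent.H46.CH.AT

/-!
# The regular level, row SH: extra elements are carried from a subtree to the root
-/

set_option autoImplicit false

namespace Pool.Agent.H23.CH

open Classical Pool.Agent.H8.VR Pool.Agent.H69.VR Pool.Agent.H46.CH

section
variable {N Q L T O C : Type} [Fintype Q] [Fintype L] [Fintype T] [Fintype O] [Fintype C]
  [Nonempty T] (W : Pm N Q L T O C)

theorem ofs_zero (D : Fk Q L O → ℕ) (hD : ∀ φ, D φ = 0) : W.ofs D = 0 := by
  funext κ z
  unfold Pm.ofs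
  exact Finset.sum_eq_zero fun φ _ => by rw [hD φ, ite_self]

theorem ofs_add (A B D : Fk Q L O → ℕ) (h : ∀ φ, D φ = A φ + B φ) :
    W.ofs D = W.ofs A + W.ofs B := by
  funext κ z
  rw [Pi.add_apply, Pi.add_apply]
  unfold Pm.ofs
  rw [← Finset.sum_add_distrib]
  refine Finset.sum_congr rfl fun φ _ => ?_
  split_ifs
  · exact h φ
  · rfl

omit [Fintype Q] [Fintype L] [Fintype T] [Fintype O] [Fintype C] [Nonempty T] in
theorem le_fs {A : Type} [Fintype A] (P : A → Prop) (f : A → ℕ) (a : A) (h : P a) :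
    f a ≤ fs P f := by
  unfold fs
  exact Finset.single_le_sum (f := f) (fun _ _ => Nat.zero_le _)
    (Finset.mem_filter.2 ⟨Finset.mem_univ a, h⟩)

omit [Fintype O] [Nonempty T] in
theorem kc_pos (c : Ix Q L T C → ℕ) (τ : Ix Q L T C) (h : c τ ≠ 0) :
    0 < kc c (τ.1, τ.2.1) :=
  lt_of_lt_of_le (Nat.pos_of_ne_zero h) (le_fs _ c τ rfl)

end

theorem pf_SH (hXL : T_XL) (hXR : T_XR) (hRO : T_RO) (hJW : T_JW) :
    Pool.Agent.H46.CH.T_SH := by
  intro N Q L T O C _ _ _ _ _ _ W t R hsub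
  induction hsub with
  | refl t =>
    intro _
    refine ⟨fun _ => le_rfl, fun U off _ _ h => ?_⟩
    rw [ofs_zero W _ (fun φ => Nat.sub_self _), add_zero]
    exact h
  | left D o w t t₁ t₂ hsub ih =>
    intro hok
    cases hok with
    | join _ _ _ _ _ h₁ h₂ hs ht hu hF₁ hF₂ a' e hw hc hg =>
      obtain ⟨i1, i2⟩ := ih h₁
      have hle : ∀ φ, D.F φ ≤ t₁.dt.F φ := fun φ => by
        rw [hF₁ φ]
        exact Nat.le_add_right _ _
      refine ⟨fun φ => (hle φ).trans (i1 φ), fun U off hU hcond hR => ?_⟩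
      have h5 := i2 U off hU (fun σ φ hσ hφ => hcond σ φ hσ (lt_of_le_of_lt (hle φ) hφ)) hR
      have h6 := hXL N Q L T O C W o t₁.dt.c U t₂.dt.c a' e _ (hs ▸ h5)
        (ht ▸ hRO N Q L T O C W t₂ h₂) (hJW N Q L T O C W o _ _ _ _ _ w hw) hU ?_
      · have h7 : D.c = a' + e := funext hc
        change W.RX D.s D.c U _
        rw [h7, ← hu]
        rw [add_assoc, ← ofs_add W _ _ (fun φ => t.dt.F φ - D.F φ) ?_] at h6
        · exact h6
        · intro φ
          have h8 := hF₁ φ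
          have h9 := i1 φ
          omega
      · intro σ τ hσ hτ
        refine hcond σ (o, true, τ.1, τ.2.1) hσ ?_
        change D.F (o, true, τ.1, τ.2.1) < t.dt.F (o, true, τ.1, τ.2.1)
        refine lt_of_lt_of_le ?_ (i1 _)
        rw [hF₁, if_pos ⟨rfl, rfl⟩]
        exact Nat.lt_add_of_pos_right (kc_pos _ τ hτ)
  | right D o w t t₁ t₂ hsub ih =>
    intro hok
    cases hok with
    | join _ _ _ _ _ h₁ h₂ hs ht hu hF₁ hF₂ a' e hw hc hg =>
      obtain ⟨i1, i2⟩ := ih h₂
      have hle : ∀ φ, D.F φ ≤ t₂.dt.F φ := fun φ => by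
        rw [hF₂ φ]
        exact Nat.le_add_right _ _
      refine ⟨fun φ => (hle φ).trans (i1 φ), fun U off hU hcond hR => ?_⟩
      have h5 := i2 U off hU (fun σ φ hσ hφ => hcond σ φ hσ (lt_of_le_of_lt (hle φ) hφ)) hR
      have h6 := hXR N Q L T O C W o t₁.dt.c t₂.dt.c U a' e _
        (hs ▸ hRO N Q L T O C W t₁ h₁) (ht ▸ h5) (hJW N Q L T O C W o _ _ _ _ _ w hw) hU ?_
      · have h7 : D.c = a' + e := funext hc
        change W.RX D.s D.c U _
        rw [h7, ← hu]
        rw [add_assoc, ← ofs_add W _ _ (fun φ => t.dt.F φ - D.F φ) ?_] at h6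
        · exact h6
        · intro φ
          have h8 := hF₂ φ
          have h9 := i1 φ
          omega
      · intro σ τ hσ hτ
        refine hcond σ (o, false, τ.1, τ.2.1) hσ ?_
        change D.F (o, false, τ.1, τ.2.1) < t.dt.F (o, false, τ.1, τ.2.1)
        refine lt_of_lt_of_le ?_ (i1 _)
        rw [hF₂, if_pos ⟨rfl, rfl⟩]
        exact Nat.lt_add_of_pos_right (kc_pos _ τ hτ)

end Pool.Agent.H23.CH
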