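import Pool.Agent.H46.CH.AT

/-!
# The regular level, row WQ: run trees are well quasi-ordered
-/

set_option autoImplicit false

namespace Pool.Agent.H23.CH

open Classical Pool.Agent.H8.VR Pool.Agent.H69.VR Pool.Agent.H46.CH

/-- a well quasi-ordered preorder -/
structure WP {α : Type} (r : α → α → Prop) : Prop where
  rfl' : ∀ a, r a a
  tr' : ∀ a b c, r a b → r b c → r a c
  wq : WellQuasiOrdered r

namespace WP

variable {α β : Type} {r : α → α → Prop} {s : β → β → Prop}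

theorem pre (h : WP r) : IsPreorder α r := { refl := h.rfl', trans := h.tr' }

theorem eq_fin (α : Type) [Finite α] : WP (fun a b : α => a = b) where
  rfl' _ := rfl
  tr' _ _ _ := Eq.trans
  wq := Finite.wellQuasiOrdered _

theorem le_nat : WP (fun a b : ℕ => a ≤ b) where
  rfl' a := le_refl a
  tr' _ _ _ := le_trans
  wq := wellQuasiOrdered_le

theorem prod (hr : WP r) (hs : WP s) : WP (fun a b : α × β => r a.1 b.1 ∧ s a.2 b.2) where
  rfl' a := ⟨hr.rfl' _, hs.rfl' _⟩
  tr' _ _ _ h k := ⟨hr.tr' _ _ _ h.1 k.1, hs.tr' _ _ _ h.2 k.2⟩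
  wq := by
    haveI := hr.pre
    exact hr.wq.prod hs.wq

theorem pi {ι : Type} [Finite ι] (hr : WP r) : WP (fun a b : ι → α => ∀ i, r (a i) (b i)) where
  rfl' a i := hr.rfl' _
  tr' _ _ _ h k i := hr.tr' _ _ _ (h i) (k i)
  wq := by
    haveI := hr.pre
    exact WellQuasiOrdered.pi (r := fun _ : ι => r) fun _ => hr.wq

theorem comap (hs : WP s) (φ : α → β) (h : ∀ a b, r a b ↔ s (φ a) (φ b)) : WP r where
  rfl' a := (h a a).2 (hs.rfl' _)
  tr' a b c h1 h2 := (h a c).2 (hs.tr' _ _ _ ((h a b).1 h1) ((h b c).1 h2))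
  wq f := by
    obtain ⟨m, n, hmn, h1⟩ := hs.wq (φ ∘ f)
    exact ⟨m, n, hmn, (h _ _).2 h1⟩

theorem list (hr : WP r) : WP (List.SublistForall₂ r) := by
  haveI := hr.pre
  refine ⟨fun a => refl_of (List.SublistForall₂ r) a, fun a b c h k => _root_.trans h k, ?_⟩
  have h1 : (Set.univ : Set α).PartiallyWellOrderedOn r := by
    rw [Set.partiallyWellOrderedOn_iff_exists_lt]
    intro f _
    exact hr.wq f
  have h2 := Set.PartiallyWellOrderedOn.partiallyWellOrderedOn_sublistForall₂ r h1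
  rw [Set.partiallyWellOrderedOn_iff_exists_lt] at h2
  intro f
  exact h2 f fun n x _ => trivial

end WP

section
variable {N Q L T O C : Type} [Fintype T] (W : Pm N Q L T O C)

theorem eqp_iff (x y : ℕ) : W.eqp x y ↔ min x W.H = min y W.H ∧ x % W.P = y % W.P := by
  unfold Pm.eqp Nat.ModEq
  constructor
  · rintro (rfl | ⟨h1, h2, h3⟩)
    · exact ⟨rfl, rfl⟩
    · exact ⟨by rw [min_eq_right h1, min_eq_right h2], h3⟩
  · rintro ⟨h1, h2⟩
    by_cases hx : W.H ≤ x
    · by_cases hy : W.H ≤ y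
      · exact Or.inr ⟨hx, hy, h2⟩
      · rw [min_eq_right hx, min_eq_left (le_of_not_ge hy)] at h1
        omega
    · left
      rw [min_eq_left (le_of_not_ge hx)] at h1
      omega

theorem lp_iff (x y : ℕ) :
    W.lp x y ↔ (min x W.H = min y W.H ∧ x % W.P = y % W.P) ∧ x ≤ y := by
  unfold Pm.lp Nat.ModEq
  constructor
  · rintro (rfl | ⟨h1, h2, h3⟩)
    · exact ⟨⟨rfl, rfl⟩, le_rfl⟩
    · exact ⟨⟨by rw [min_eq_right h1, min_eq_right (h1.trans h2)], h3⟩, h2⟩
  · rintro ⟨⟨h1, h2⟩, h3⟩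
    by_cases hx : W.H ≤ x
    · exact Or.inr ⟨hx, h3, h2⟩
    · left
      rw [min_eq_left (le_of_not_ge hx)] at h1
      omega

theorem wp_eqp : WP W.eqp := by
  have hP := W.pos
  refine ((WP.eq_fin (Fin (W.H + 1))).prod (WP.eq_fin (Fin W.P))).comap
    (fun x => (⟨min x W.H, by omega⟩, ⟨x % W.P, Nat.mod_lt _ hP⟩)) fun a b => ?_
  rw [eqp_iff]
  simp only [Fin.mk.injEq]

theorem wp_lp : WP W.lp := by
  have hP := W.pos
  refine ((((WP.eq_fin (Fin (W.H + 1))).prod (WP.eq_fin (Fin W.P)))).prod WP.le_nat).comap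
    (fun x => ((⟨min x W.H, by omega⟩, ⟨x % W.P, Nat.mod_lt _ hP⟩), x)) fun a b => ?_
  rw [lp_iff]
  simp only [Fin.mk.injEq]

variable [Finite N] [Fintype Q] [Fintype L] [Finite O] [Fintype C]

theorem wp_dle : WP W.dle := by
  refine ((WP.eq_fin N).prod (((wp_eqp W).pi (ι := Fk Q L O)).prod
    ((wp_lp W).pi (ι := Ix Q L T C)))).comap (fun D => (D.s, D.F, D.c)) fun a b => ?_
  rfl

theorem wp_sle : WP W.sle := by
  refine ((WP.eq_fin (Ix Q L T C)).prod (((wp_lp W).pi (ι := Ix Q L T C × T)).prod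
    (((wp_lp W).pi (ι := Ix Q L T C)).prod ((wp_lp W).pi (ι := Ix Q L T C))))).comap
    (fun x => (x.τ, x.m, x.a, x.b)) fun a b => ?_
  rfl

/-- labels -/
abbrev Lbl (N Q L T O C : Type) : Type :=
  Dt N Q L T O C × Option (Q × L) × Option O × List (Sd Q L T C) × Dt N Q L T O C ×
    Dt N Q L T O C

/-- the order of the labels -/
def lr (x y : Lbl N Q L T O C) : Prop :=
  W.dle x.1 y.1 ∧ x.2.1 = y.2.1 ∧ x.2.2.1 = y.2.2.1 ∧
    List.SublistForall₂ W.sle x.2.2.2.1 y.2.2.2.1 ∧ W.dle x.2.2.2.2.1 y.2.2.2.2.1 ∧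
    W.dle x.2.2.2.2.2 y.2.2.2.2.2

theorem wp_lr : WP (lr W) :=
  ((wp_dle W).prod ((WP.eq_fin (Option (Q × L))).prod ((WP.eq_fin (Option O)).prod
    ((wp_sle W).list.prod ((wp_dle W).prod (wp_dle W)))))).comap (fun x => x) fun _ _ => Iff.rfl

omit [Fintype T] [Finite N] [Fintype Q] [Fintype L] [Finite O] [Fintype C] in
/-- the code of a run tree -/
def code : Rt N Q L T O C → Bt (Lbl N Q L T O C)
  | .leaf D q l => .leaf (D, some (q, l), none, [], D, D)
  | .join D o w t₁ t₂ => .node (D, none, some o, w, t₁.dt, t₂.dt) (code t₁) (code t₂)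

omit [Finite N] [Fintype Q] [Fintype L] [Finite O] [Fintype C] in
theorem emb_of_code (x y : Bt (Lbl N Q L T O C)) (h : Bt.Emb (lr W) x y) :
    ∀ t R : Rt N Q L T O C, x = code t → y = code R → W.Emb t R := by
  induction h with
  | leaf a b h =>
    intro t R ht hR
    cases t with
    | join D o w t₁ t₂ => exact absurd ht (by simp [code])
    | leaf D q l =>
      cases R with
      | join D o w t₁ t₂ => exact absurd hR (by simp [code])
      | leaf D' q' l' =>
        simp only [code, Bt.leaf.injEq] at ht hR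
        subst ht
        subst hR
        obtain ⟨h1, h2, -⟩ := h
        simp only [Option.some.injEq, Prod.mk.injEq] at h2
        obtain ⟨rfl, rfl⟩ := h2
        exact Pm.Emb.leaf _ _ _ _ h1
  | node a b t₁ t₂ t₁' t₂' h h₁ h₂ ih₁ ih₂ =>
    intro t R ht hR
    cases t with
    | leaf D q l => exact absurd ht (by simp [code])
    | join D o w s₁ s₂ =>
      cases R with
      | leaf D' q' l' => exact absurd hR (by simp [code])
      | join D' o' w' s₁' s₂' =>
        simp only [code, Bt.node.injEq] at ht hR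
        obtain ⟨rfl, h3, h4⟩ := ht
        obtain ⟨rfl, h5, h6⟩ := hR
        obtain ⟨g1, -, g3, g4, g5, g6⟩ := h
        simp only [Option.some.injEq] at g3
        subst g3
        exact Pm.Emb.join _ _ _ _ _ _ _ _ _ g1 g4 (ih₁ _ _ h3 h5) (ih₂ _ _ h4 h6) g5 g6
  | left b t t₁' t₂' h ih =>
    intro t R ht hR
    cases R with
    | leaf D' q' l' => exact absurd hR (by simp [code])
    | join D' o' w' s₁' s₂' =>
      simp only [code, Bt.node.injEq] at hR
      exact Pm.Emb.left _ _ _ _ _ _ (ih _ _ ht hR.2.1)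
  | right b t t₁' t₂' h ih =>
    intro t R ht hR
    cases R with
    | leaf D' q' l' => exact absurd hR (by simp [code])
    | join D' o' w' s₁' s₂' =>
      simp only [code, Bt.node.injEq] at hR
      exact Pm.Emb.right _ _ _ _ _ _ (ih _ _ ht hR.2.2)

end

theorem pf_WQ (hKR : T_KR) : Pool.Agent.H46.CH.T_WQ := by
  intro N Q L T O C _ _ _ _ _ _ W f
  have h1 := wp_lr W
  have h2 := hKR _ (lr W) h1.rfl' h1.tr' h1.wq
  haveI := (wp_dle W).pre
  obtain ⟨m, n, hmn, h3, h4⟩ := ((wp_dle W).wq.prod h2) (fun n => ((f n).dt, code (f n)))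
  exact ⟨m, n, hmn, h3, emb_of_code W _ _ h4 _ _ rfl rfl⟩

end Pool.Agent.H23.CH
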